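import Pool.Agent.H11.KL

set_option autoImplicit false

namespace Pool.Agent.Results.MP_16af68_gt.NotHomeo

open Pool.Agent

theorem result :
    ∃ (K : (X : Type) → [TopologicalSpace X] → Prop),
      (∀ (X : Type) [TopologicalSpace X], K X → T0Space X) ∧
      (∀ (X : Type) [TopologicalSpace X] [T0Space X] [QuasiSober X], K X) ∧
      (∀ (X Y : Type) [TopologicalSpace X] [TopologicalSpace Y],
          Nonempty (X ≃ₜ Y) → K X → K Y) ∧
      (∀ (Y : Type) [TopologicalSpace Y] [T0Space Y] [QuasiSober Y] (S : Set (Set Y)),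
          (∀ A ∈ S, K ↥A) → K ↥(⋂₀ S)) ∧
      (∀ (X Y : Type) [TopologicalSpace X] [TopologicalSpace Y] [T0Space X] [QuasiSober X]
          [T0Space Y] [QuasiSober Y] (f : X → Y), Continuous f →
          ∀ B : Set Y, K ↥B → K ↥(f ⁻¹' B)) ∧
      ∃ (X R : ℕ → Type) (_ : ∀ i, TopologicalSpace (X i)) (_ : ∀ i, T0Space (X i))
        (_ : ∀ i, TopologicalSpace (R i)) (η : ∀ i, X i → R i),
        (∀ i, Continuous (η i) ∧ K (R i) ∧
          ∀ (Z : Type) [TopologicalSpace Z], K Z → ∀ g : X i → Z, Continuous g →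
            ∃! h : R i → Z, Continuous h ∧ h ∘ η i = g) ∧
        ∀ (W : Type) [TopologicalSpace W] (μ : (∀ i, X i) → W),
          (Continuous μ ∧ K W ∧
            ∀ (Z : Type) [TopologicalSpace Z], K Z → ∀ g : (∀ i, X i) → Z, Continuous g →
              ∃! h : W → Z, Continuous h ∧ h ∘ μ = g) →
          ¬ Nonempty (W ≃ₜ (∀ i, R i)) := by
  refine ⟨H11.KL.K, fun X _ hX => hX.1, H11.KL.K_sober, H11.KL.K_homeo, H11.KL.K_inter,
    H11.KL.K_pre, H11.KL.A, H11.KL.R, inferInstance, inferInstance, inferInstance, H11.KL.eta,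
    fun n => ⟨H11.KL.eta_cont n, H11.KL.K_R n, H11.KL.refl_R n⟩, ?_⟩
  rintro W _ μ ⟨-, -, hW⟩ ⟨e⟩
  obtain ⟨h, hc, he⟩ := (hW _ H11.KL.K_Z _ H11.KL.incl_cont).exists
  apply H11.KL.no_top (h (e.symm fun n => H11.KL.inf n))
  intro x
  rw [← he]
  refine Specializes.map ?_ hc
  have h1 : (fun n => H11.KL.inf n) ⤳ e (μ x) := specializes_pi.2 fun n => H11.KL.inf_spec _
  have h2 := h1.map e.symm.continuous
  rwa [e.symm_apply_apply] at h2

end Pool.Agent.Results.MP_16af68_gt.NotHomeo
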